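import Pool.Agent.H62.GEN.JatB
import Pool.Agent.H31.W1.H2.GEN.ChT
import Pool.Agent.H3.W.Nlp

/-!
# A label of the target on the top of the chains of several points (class level)

`TgP`: a label of the target at the point `(a, w)`, over any coordinates of the list.
`jatn_pts`: the joint chains of the coordinates of the list and of the target, at finitely many
points.
-/

set_option autoImplicit false

namespace Pool.W.JTN

open Pool.JTN

open Finset Real MvPolynomial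
open Pool.Agent.H49.Ent Pool.Agent.H32.Dense Pool.STK Pool.KA Pool.KSAT Pool.K2S Pool.PB Pool.S6C
open Pool.GEN Pool.CHT
open Pool.LBT (LSys Slo Tri ThrOf)
open Pool.LEV (Law)
open Pool.FRN (Relv foreign own_ext uni_s)

variable {m J : ℕ} {θ : ℝ} {S : Pool.PB.PCl m} {P : List (Fin m) × Fin m → ℝ → ℝ → ℝ}

/-- **A label of the target** `c r` at the point `(a, w)`: over any coordinates of the list
`c 0, …, c (r - 1)`, with the precision `P₀`, visible up to `sg`. -/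
def TgP (S : Pool.PB.PCl m) (c : ℕ → Fin m) (r : ℕ) (P₀ a w sg : ℝ) : Prop :=
  ∀ ε : ℝ, 0 < ε → ∃ (K' : ℕ) (K₁ : ℝ), 0 < K₁ ∧ Pool.S6C.Bas S (fun J F A =>
    ∃ (B : F.Ω → Prop) (c' : ℕ → Fin m) (i e' : ℕ) (q : ℕ → ℕ), Pool.K2S.Sub B A ∧
      Pool.K2S.Pe F.p A ≤ K₁ * Pool.K2S.Pe F.p B ∧ i ≤ r ∧ Set.InjOn c' (Set.Iio i) ∧
      (∀ l < i, ∃ j < r, c' l = c j) ∧ c' i = c r ∧
      Pool.W.GEN.ChN F c' (i + 1) (fun _ => K') ⌊a * J⌋₊ ⌊w * J⌋₊ e' q B ∧ (P₀ - ε) * J ≤ q i ∧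
      ∀ l ≤ i, ((e' + q l : ℕ) : ℝ) ≤ (sg + ε) * J)


/-! ### The numbers -/


/-! ### Renaming of the list -/


end Pool.W.JTN
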